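import Mathlib

/-!
# Counting inputs without connections
-/

set_option linter.unusedSectionVars false
set_option maxHeartbeats 400000

namespace Pool.Agent.H537R2.Apsq

open Finset

/-- The number of inputs with a property, as a real number. -/
noncomputable def cnt {B : Type} {n : ℕ} (P : (B → Fin n) → Prop) : ℝ :=
  (Nat.card {y : B → Fin n // P y} : ℝ)

section

variable {B : Type} [Fintype B] [DecidableEq B] {n : ℕ}

theorem cnt_nonneg (P : (B → Fin n) → Prop) : 0 ≤ cnt P := Nat.cast_nonneg _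

theorem cnt_mono {P P' : (B → Fin n) → Prop} (h : ∀ y, P y → P' y) : cnt P ≤ cnt P' := by
  unfold cnt
  have : Nat.card {y : B → Fin n // P y} ≤ Nat.card {y : B → Fin n // P' y} :=
    Nat.card_le_card_of_injective (fun y => ⟨y.1, h y.1 y.2⟩)
      (fun y y' hy => Subtype.ext (congrArg (fun z => z.1) hy))
  exact_mod_cast this

theorem cnt_congr {P P' : (B → Fin n) → Prop} (h : ∀ y, P y ↔ P' y) : cnt P = cnt P' :=
  le_antisymm (cnt_mono fun y => (h y).1) (cnt_mono fun y => (h y).2)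

theorem cnt_eq (P : (B → Fin n) → Prop) [DecidablePred P] :
    cnt P = (#(univ.filter (fun y : B → Fin n => P y)) : ℝ) := by
  unfold cnt
  rw [Nat.card_eq_fintype_card, Fintype.card_subtype]

theorem cnt_split (P G : (B → Fin n) → Prop) :
    cnt P = cnt (fun y => P y ∧ G y) + cnt (fun y => P y ∧ ¬ G y) := by
  classical
  rw [cnt_eq, cnt_eq, cnt_eq]
  have h1 := Finset.card_filter_add_card_filter_not
    (s := univ.filter (fun y : B → Fin n => P y)) (fun y => G y)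
  rw [filter_filter, filter_filter] at h1
  exact_mod_cast h1.symm

/-- A condition which does not depend on the coordinate `v`. -/
theorem cnt_coord (v : B) (G : (B → Fin n) → Prop) (hG : ∀ y r, G y → G (Function.update y v r))
    (r : Fin n) : (n : ℝ) * cnt (fun y => G y ∧ y v = r) = cnt G := by
  unfold cnt
  have h1 : Nat.card {y : B → Fin n // G y} =
      Nat.card (Fin n × {y : B → Fin n // G y ∧ y v = r}) := by
    refine Nat.card_congr ⟨fun y => (y.1 v, ⟨Function.update y.1 v r, hG _ _ y.2, by simp⟩),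
      fun p => ⟨Function.update p.2.1 v p.1, hG _ _ p.2.2.1⟩, ?_, ?_⟩
    · intro y
      apply Subtype.ext
      simp
    · rintro ⟨r', y, h2, h3⟩
      apply Prod.ext
      · simp
      · apply Subtype.ext
        simp only [Function.update_idem]
        rw [← h3, Function.update_eq_self]
  rw [h1, Nat.card_prod, Nat.card_eq_fintype_card (α := Fin n), Fintype.card_fin]
  push_cast
  rfl

theorem cnt_hit (hn : 0 < n) (v : B) (G : (B → Fin n) → Prop)
    (hG : ∀ y r, G y → G (Function.update y v r)) :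
    cnt (fun y => G y ∧ (y v).1 = 0) = 1 / n * cnt G := by
  have h1 := cnt_coord v G hG ⟨0, hn⟩
  have hn' : (n : ℝ) ≠ 0 := by positivity
  have h2 : cnt (fun y => G y ∧ (y v).1 = 0) = cnt (fun y => G y ∧ y v = ⟨0, hn⟩) :=
    cnt_congr fun y => by rw [Fin.ext_iff]
  rw [h2, ← h1]
  field_simp

theorem cnt_nohit (hn : 0 < n) (v : B) (G : (B → Fin n) → Prop)
    (hG : ∀ y r, G y → G (Function.update y v r)) :
    cnt (fun y => G y ∧ ¬ (y v).1 = 0) = (1 - 1 / n) * cnt G := by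
  have h1 := cnt_split G (fun y => (y v).1 = 0)
  rw [cnt_hit hn v G hG] at h1
  linarith

/-- The inputs which agree with `ρ` on `Q`. -/
def Cons (Q : Finset B) (ρ : B → Fin n) (y : B → Fin n) : Prop := ∀ j ∈ Q, y j = ρ j

theorem cons_update {Q : Finset B} {ρ : B → Fin n} {v : B} (hv : v ∉ Q) (y : B → Fin n)
    (r : Fin n) (h : Cons Q ρ y) : Cons Q ρ (Function.update y v r) := by
  intro j hj
  have hjv : j ≠ v := by rintro rfl; exact hv hj
  rw [Function.update_of_ne hjv]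
  exact h j hj

theorem cnt_avoid (hn : 0 < n) (Q : Finset B) (ρ : B → Fin n) (U : Finset B)
    (hU : ∀ u ∈ U, u ∉ Q) :
    cnt (fun y => Cons Q ρ y ∧ ∀ u ∈ U, ¬ (y u).1 = 0) = (1 - 1 / n) ^ #U * cnt (Cons Q ρ) := by
  classical
  induction U using Finset.induction_on with
  | empty => simp
  | insert v U hv ih =>
    have h1 := cnt_nohit hn v (fun y => Cons Q ρ y ∧ ∀ u ∈ U, ¬ (y u).1 = 0) (by
      rintro y r ⟨h2, h3⟩
      refine ⟨cons_update (hU v (mem_insert_self _ _)) y r h2, fun u hu => ?_⟩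
      have huv : u ≠ v := by rintro rfl; exact hv hu
      rw [Function.update_of_ne huv]
      exact h3 u hu)
    rw [ih (fun u hu => hU u (mem_insert_of_mem hu))] at h1
    rw [card_insert_of_notMem hv, pow_succ]
    have h2 : cnt (fun y => Cons Q ρ y ∧ ∀ u ∈ insert v U, ¬ (y u).1 = 0) =
        cnt (fun y => (Cons Q ρ y ∧ ∀ u ∈ U, ¬ (y u).1 = 0) ∧ ¬ (y v).1 = 0) :=
      cnt_congr fun y => by simp only [forall_mem_insert]; tauto
    rw [h2, h1]
    ring

theorem cnt_block (hn : 0 < n) (Q : Finset B) (ρ : B → Fin n) (U : B → Finset B) (z : ℕ)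
    (V : Finset B) (hV : ∀ v ∈ V, v ∉ Q) (hU : ∀ v ∈ V, ∀ u ∈ U v, u ∉ Q)
    (hVU : ∀ v ∈ V, ∀ v' ∈ V, v ∉ U v') (hz : ∀ v ∈ V, z ≤ #(U v)) :
    cnt (fun y => Cons Q ρ y ∧ ∀ v ∈ V, (y v).1 = 0 → ∀ u ∈ U v, ¬ (y u).1 = 0) ≤
      (1 - (1 - (1 - 1 / (n : ℝ)) ^ #V) * (1 - (1 - 1 / (n : ℝ)) ^ z)) * cnt (Cons Q ρ) := by
  classical
  induction V using Finset.induction_on with
  | empty => simp
  | insert v V hv ih =>
    have ih' := ih (fun v hv => hV v (mem_insert_of_mem hv)) (fun v hv => hU v (mem_insert_of_mem hv))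
      (fun v hv v' hv' => hVU v (mem_insert_of_mem hv) v' (mem_insert_of_mem hv'))
      (fun v hv => hz v (mem_insert_of_mem hv))
    set q : ℝ := 1 - 1 / (n : ℝ) with hq
    have hn' : (1 : ℝ) ≤ n := by exact_mod_cast hn
    have hq0 : 0 ≤ q := by
      rw [hq, sub_nonneg]
      exact div_le_one_of_le₀ hn' (by linarith)
    have hq1 : q ≤ 1 := by
      rw [hq]; linarith [show (0 : ℝ) ≤ 1 / n by positivity]
    have hvQ : v ∉ Q := hV v (mem_insert_self _ _)
    have h1 := cnt_nohit hn v (fun y => Cons Q ρ y ∧ ∀ v ∈ V, (y v).1 = 0 →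
      ∀ u ∈ U v, ¬ (y u).1 = 0) (by
      rintro y r ⟨h2, h3⟩
      refine ⟨cons_update hvQ y r h2, fun v' hv' => ?_⟩
      have hne : v' ≠ v := by rintro rfl; exact hv hv'
      rw [Function.update_of_ne hne]
      intro h4 u hu
      have hne2 : u ≠ v := by
        rintro rfl
        exact hVU u (mem_insert_self _ _) v' (mem_insert_of_mem hv') hu
      rw [Function.update_of_ne hne2]
      exact h3 v' hv' h4 u hu)
    have h2 := cnt_hit hn v (fun y => Cons Q ρ y ∧ ∀ u ∈ U v, ¬ (y u).1 = 0) (by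
      rintro y r ⟨h2, h3⟩
      refine ⟨cons_update hvQ y r h2, fun u hu => ?_⟩
      have hne2 : u ≠ v := by
        rintro rfl
        exact hVU u (mem_insert_self _ _) u (mem_insert_self _ _) hu
      rw [Function.update_of_ne hne2]
      exact h3 u hu)
    rw [cnt_avoid hn Q ρ (U v) (hU v (mem_insert_self _ _))] at h2
    rw [← hq] at h1 h2
    have h3 : q ^ #(U v) ≤ q ^ z := pow_le_pow_of_le_one hq0 hq1 (hz v (mem_insert_self _ _))
    have hc0 : 0 ≤ cnt (Cons Q ρ) := cnt_nonneg _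
    have hp : (1 : ℝ) / n = 1 - q := by rw [hq]; ring
    rw [hp] at h2
    have h4 : cnt (fun y => Cons Q ρ y ∧ ∀ v' ∈ insert v V, (y v').1 = 0 →
        ∀ u ∈ U v', ¬ (y u).1 = 0) ≤
        cnt (fun y => (Cons Q ρ y ∧ ∀ v ∈ V, (y v).1 = 0 → ∀ u ∈ U v, ¬ (y u).1 = 0) ∧
          ¬ (y v).1 = 0) +
        cnt (fun y => (Cons Q ρ y ∧ ∀ u ∈ U v, ¬ (y u).1 = 0) ∧ (y v).1 = 0) := by
      rw [cnt_split (fun y => Cons Q ρ y ∧ ∀ v' ∈ insert v V, (y v').1 = 0 →
        ∀ u ∈ U v', ¬ (y u).1 = 0) (fun y => (y v).1 = 0), add_comm]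
      apply add_le_add
      · apply cnt_mono
        rintro y ⟨⟨h5, h6⟩, h7⟩
        exact ⟨⟨h5, fun v' hv' => h6 v' (mem_insert_of_mem hv')⟩, h7⟩
      · apply cnt_mono
        rintro y ⟨⟨h5, h6⟩, h7⟩
        exact ⟨⟨h5, h6 v (mem_insert_self _ _) h7⟩, h7⟩
    rw [h1, h2] at h4
    refine h4.trans ?_
    rw [card_insert_of_notMem hv]
    have h5 : q * cnt (fun y => Cons Q ρ y ∧ ∀ v ∈ V, (y v).1 = 0 → ∀ u ∈ U v, ¬ (y u).1 = 0) ≤
        q * ((1 - (1 - q ^ #V) * (1 - q ^ z)) * cnt (Cons Q ρ)) :=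
      mul_le_mul_of_nonneg_left ih' hq0
    have h6 : (1 - q) * (q ^ #(U v) * cnt (Cons Q ρ)) ≤ (1 - q) * (q ^ z * cnt (Cons Q ρ)) :=
      mul_le_mul_of_nonneg_left (mul_le_mul_of_nonneg_right h3 hc0) (by linarith)
    calc _ ≤ q * ((1 - (1 - q ^ #V) * (1 - q ^ z)) * cnt (Cons Q ρ)) +
          (1 - q) * (q ^ z * cnt (Cons Q ρ)) := add_le_add h5 h6
      _ = (1 - (1 - q ^ (#V + 1)) * (1 - q ^ z)) * cnt (Cons Q ρ) := by
          rw [pow_succ]; ring

theorem half_le (hn : 0 < n) (s : ℕ) (hs : s ≤ n) :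
    (s : ℝ) / (2 * n) ≤ 1 - (1 - 1 / (n : ℝ)) ^ s := by
  have hn' : (0 : ℝ) < n := by exact_mod_cast hn
  have hn1 : (1 : ℝ) ≤ n := by exact_mod_cast hn
  have hp0 : (0 : ℝ) ≤ 1 / n := by positivity
  have hp1 : (1 : ℝ) / n ≤ 1 := div_le_one_of_le₀ hn1 hn'.le
  set t : ℝ := (s : ℝ) / n with ht
  have ht0 : 0 ≤ t := by positivity
  have ht1 : t ≤ 1 := by
    rw [ht, div_le_one hn']
    exact_mod_cast hs
  set q : ℝ := (1 - 1 / (n : ℝ)) ^ s with hq
  have hq0 : 0 ≤ q := pow_nonneg (by linarith) _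
  have h1 : 1 + t ≤ (1 + 1 / (n : ℝ)) ^ s := by
    have := one_add_mul_le_pow (a := 1 / (n : ℝ)) (by linarith) s
    calc 1 + t = 1 + (s : ℝ) * (1 / n) := by rw [ht]; ring
      _ ≤ _ := this
  have h2 : q * (1 + 1 / (n : ℝ)) ^ s ≤ 1 := by
    rw [hq, ← mul_pow]
    apply pow_le_one₀
    · exact mul_nonneg (by linarith) (by linarith)
    · nlinarith
  have h3 : q * (1 + t) ≤ 1 := (mul_le_mul_of_nonneg_left h1 hq0).trans h2
  have h4 : (s : ℝ) / (2 * n) = t / 2 := by rw [ht]; ring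
  rw [h4]
  have h5 : 1 ≤ (1 - t / 2) * (1 + t) := by nlinarith
  have h6 : q * (1 + t) ≤ (1 - t / 2) * (1 + t) := h3.trans h5
  have h7 := le_of_mul_le_mul_right h6 (by linarith)
  linarith

theorem cnt_block' (hn : 0 < n) (Q : Finset B) (ρ : B → Fin n) (U : B → Finset B) (z : ℕ)
    (V : Finset B) (hV : ∀ v ∈ V, v ∉ Q) (hU : ∀ v ∈ V, ∀ u ∈ U v, u ∉ Q)
    (hVU : ∀ v ∈ V, ∀ v' ∈ V, v ∉ U v') (hz : ∀ v ∈ V, z ≤ #(U v)) (hVn : #V ≤ n)
    (hzn : z ≤ n) :
    cnt (fun y => Cons Q ρ y ∧ ∀ v ∈ V, (y v).1 = 0 → ∀ u ∈ U v, ¬ (y u).1 = 0) ≤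
      Real.exp (-((#V : ℝ) * z / (4 * n ^ 2))) * cnt (Cons Q ρ) := by
  refine (cnt_block hn Q ρ U z V hV hU hVU hz).trans ?_
  apply mul_le_mul_of_nonneg_right _ (cnt_nonneg _)
  have h1 := half_le hn #V hVn
  have h2 := half_le hn z hzn
  have hn' : (0 : ℝ) < n := by exact_mod_cast hn
  have h3 : (#V : ℝ) * z / (4 * n ^ 2) ≤
      (1 - (1 - 1 / (n : ℝ)) ^ #V) * (1 - (1 - 1 / (n : ℝ)) ^ z) := by
    calc (#V : ℝ) * z / (4 * n ^ 2) = ((#V : ℝ) / (2 * n)) * ((z : ℝ) / (2 * n)) := by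
          field_simp; ring
      _ ≤ _ := mul_le_mul h1 h2 (by positivity) ((by positivity : (0 : ℝ) ≤ (#V : ℝ) / (2 * n)).trans h1)
  have h4 := Real.add_one_le_exp (-((#V : ℝ) * z / (4 * n ^ 2)))
  linarith

end

section

variable {A B : Type} [Fintype A] [DecidableEq A] [Fintype B] [DecidableEq B] {n : ℕ}

theorem cnt_prod (P : A → (B → Fin n) → Prop) :
    cnt (fun x : A × B → Fin n => ∀ a, P a (fun b => x (a, b))) = ∏ a, cnt (P a) := by
  unfold cnt
  rw [← Nat.cast_prod, ← Nat.card_pi]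
  congr 1
  refine Nat.card_congr ⟨fun x a => ⟨fun b => x.1 (a, b), x.2 a⟩,
    fun y => ⟨fun p => (y p.1).1 p.2, fun a => (y a).2⟩, ?_, ?_⟩
  · intro x
    rfl
  · intro y
    rfl

/-- The part of a set in a block. -/
def part (Q : Finset (A × B)) (a : A) : Finset B := univ.filter (fun b => (a, b) ∈ Q)

theorem cons_iff (Q : Finset (A × B)) (ρ : A × B → Fin n) (x : A × B → Fin n) :
    Cons Q ρ x ↔ ∀ a, Cons (part Q a) (fun b => ρ (a, b)) (fun b => x (a, b)) := by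
  unfold Cons part
  constructor
  · intro h a b hb
    exact h _ (mem_filter.1 hb).2
  · rintro h ⟨a, b⟩ hab
    exact h a b (mem_filter.2 ⟨mem_univ _, hab⟩)

/-- The bound for all blocks together. -/
theorem cnt_all (hn : 0 < n) (Q : Finset (A × B)) (ρ : A × B → Fin n) (V : A → Finset B)
    (U : A → B → Finset B) (z : ℕ) (hV : ∀ a, ∀ v ∈ V a, (a, v) ∉ Q)
    (hU : ∀ a, ∀ v ∈ V a, ∀ u ∈ U a v, (a, u) ∉ Q)
    (hVU : ∀ a, ∀ v ∈ V a, ∀ v' ∈ V a, v ∉ U a v') (hz : ∀ a, ∀ v ∈ V a, z ≤ #(U a v))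
    (hVn : ∀ a, #(V a) ≤ n) (hzn : z ≤ n) :
    cnt (fun x : A × B → Fin n => Cons Q ρ x ∧ ∀ a, ∀ v ∈ V a, (x (a, v)).1 = 0 →
      ∀ u ∈ U a v, ¬ (x (a, u)).1 = 0) ≤
      Real.exp (-((∑ a, (#(V a) : ℝ)) * z / (4 * n ^ 2))) * cnt (Cons Q ρ) := by
  classical
  have h1 : cnt (fun x : A × B → Fin n => Cons Q ρ x ∧ ∀ a, ∀ v ∈ V a, (x (a, v)).1 = 0 →
      ∀ u ∈ U a v, ¬ (x (a, u)).1 = 0) =
      ∏ a, cnt (fun y : B → Fin n => Cons (part Q a) (fun b => ρ (a, b)) y ∧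
        ∀ v ∈ V a, (y v).1 = 0 → ∀ u ∈ U a v, ¬ (y u).1 = 0) := by
    rw [← cnt_prod]
    apply cnt_congr
    intro x
    rw [cons_iff]
    constructor
    · rintro ⟨h2, h3⟩ a
      exact ⟨h2 a, h3 a⟩
    · intro h
      exact ⟨fun a => (h a).1, fun a => (h a).2⟩
  have h2 : cnt (Cons Q ρ) = ∏ a, cnt (Cons (part Q a) (fun b => ρ (a, b))) := by
    rw [← cnt_prod]
    exact cnt_congr fun x => cons_iff Q ρ x
  rw [h1, h2]
  calc _ ≤ ∏ a, (Real.exp (-((#(V a) : ℝ) * z / (4 * n ^ 2))) *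
        cnt (Cons (part Q a) (fun b => ρ (a, b)))) := by
        apply Finset.prod_le_prod
        · intro a _; exact cnt_nonneg _
        · intro a _
          apply cnt_block' hn (part Q a) (fun b => ρ (a, b)) (U a) z (V a) _ _ (hVU a) (hz a)
            (hVn a) hzn
          · intro v hv h
            exact hV a v hv (mem_filter.1 h).2
          · intro v hv u hu h
            exact hU a v hv u hu (mem_filter.1 h).2
    _ = _ := by
        rw [Finset.prod_mul_distrib, ← Real.exp_sum]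
        congr 2
        rw [sum_neg_distrib, sum_mul, sum_div]

end

end Pool.Agent.H537R2.Apsq
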