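import Mathlib

/-!
# Regular sub-relations
-/

set_option linter.unusedSectionVars false
set_option maxHeartbeats 400000

namespace Pool.Agent.H537R2.Apsq

open Finset

/-- Every large relation contains a regular one, with `2 ^ α` rows of size `2 ^ b`. -/
theorem dyadic {n ℓ r : ℕ} (hn : n ≤ 2 ^ ℓ) (R : Finset (Fin n × Fin n))
    (hR : (ℓ + 1) * 2 ^ (r + 1) ≤ #R) :
    ∃ α b, α + b = r ∧ ∃ I : Finset (Fin n), #I = 2 ^ α ∧ ∃ J : Fin n → Finset (Fin n),
      ∀ i ∈ I, #(J i) = 2 ^ b ∧ ∀ j ∈ J i, (i, j) ∈ R := by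
  classical
  set nb : Fin n → Finset (Fin n) := fun i => univ.filter (fun j => (i, j) ∈ R) with hnb
  set rows : Finset (Fin n) := univ.filter (fun i => 0 < #(nb i)) with hrows
  have h1 : #R = ∑ i ∈ rows, #(nb i) := by
    have h2 : #R = ∑ i, #(R.filter (fun p => p.1 = i)) :=
      Finset.card_eq_sum_card_fiberwise (fun p _ => mem_univ _)
    have h3 : ∀ i, #(R.filter (fun p => p.1 = i)) = #(nb i) := by
      intro i
      symm
      apply Finset.card_bij (fun j _ => (i, j))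
      · intro j hj
        simp only [hnb, mem_filter, mem_univ, true_and] at hj
        simp [hj]
      · intro j _ j' _ h
        exact congrArg Prod.snd h
      · rintro ⟨p, q⟩ hp
        simp only [mem_filter] at hp
        obtain ⟨hp1, rfl⟩ := hp
        exact ⟨q, by simp [hnb, hp1], rfl⟩
    rw [h2]
    simp only [h3]
    symm
    apply sum_subset (subset_univ _)
    intro i _ hi
    simp only [hrows, mem_filter, mem_univ, true_and, not_lt, Nat.le_zero] at hi
    exact hi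
  have hlog : ∀ i ∈ rows, Nat.log 2 #(nb i) ∈ range (ℓ + 1) := by
    intro i _
    rw [mem_range]
    have h2 : #(nb i) ≤ 2 ^ ℓ := by
      refine le_trans ?_ hn
      calc #(nb i) ≤ #(univ : Finset (Fin n)) := card_le_univ _
        _ = n := by rw [card_univ, Fintype.card_fin]
    have h3 := Nat.log_mono_right (b := 2) h2
    rw [Nat.log_pow (by norm_num)] at h3
    omega
  have h2 : #R = ∑ b ∈ range (ℓ + 1), ∑ i ∈ rows.filter (fun i => Nat.log 2 #(nb i) = b), #(nb i) := by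
    rw [h1]
    exact (Finset.sum_fiberwise_of_maps_to hlog _).symm
  have h3 : ∃ b ∈ range (ℓ + 1), 2 ^ (r + 1) ≤
      ∑ i ∈ rows.filter (fun i => Nat.log 2 #(nb i) = b), #(nb i) := by
    by_contra hcon
    push Not at hcon
    have h4 : ∑ b ∈ range (ℓ + 1), ∑ i ∈ rows.filter (fun i => Nat.log 2 #(nb i) = b), #(nb i) <
        ∑ _b ∈ range (ℓ + 1), 2 ^ (r + 1) := by
      apply sum_lt_sum_of_nonempty ⟨0, by simp⟩
      exact hcon
    rw [← h2, sum_const, card_range, smul_eq_mul] at h4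
    omega
  obtain ⟨b, _, hb⟩ := h3
  set I₀ := rows.filter (fun i => Nat.log 2 #(nb i) = b) with hI₀
  have hI₀' : ∀ i ∈ I₀, 2 ^ b ≤ #(nb i) ∧ #(nb i) < 2 ^ (b + 1) := by
    intro i hi
    obtain ⟨h5, h6⟩ := mem_filter.1 hi
    have h7 := (mem_filter.1 h5).2
    constructor
    · rw [← h6]; exact Nat.pow_log_le_self 2 h7.ne'
    · rw [← h6]; exact Nat.lt_pow_succ_log_self (by norm_num) _
  have h4 : 2 ^ (r + 1) ≤ #I₀ * 2 ^ (b + 1) := by
    calc 2 ^ (r + 1) ≤ ∑ i ∈ I₀, #(nb i) := hb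
      _ ≤ ∑ i ∈ I₀, 2 ^ (b + 1) := sum_le_sum fun i hi => (hI₀' i hi).2.le
      _ = _ := by rw [sum_const, smul_eq_mul]
  have h5 : 2 ^ r ≤ #I₀ * 2 ^ b := by
    have e1 : 2 ^ (r + 1) = 2 * 2 ^ r := by ring
    have e2 : #I₀ * 2 ^ (b + 1) = 2 * (#I₀ * 2 ^ b) := by ring
    omega
  rcases le_total b r with h | h
  · have h6 : 2 ^ (r - b) ≤ #I₀ := by
      have e1 : 2 ^ r = 2 ^ (r - b) * 2 ^ b := by rw [← pow_add]; congr 1; omega
      rw [e1] at h5
      exact Nat.le_of_mul_le_mul_right h5 (by positivity)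
    obtain ⟨I, hI, hIc⟩ := exists_subset_card_eq h6
    have h7 : ∀ i : Fin n, ∃ J : Finset (Fin n), i ∈ I → #J = 2 ^ b ∧ ∀ j ∈ J, (i, j) ∈ R := by
      intro i
      by_cases hi : i ∈ I
      · obtain ⟨J, hJ, hJc⟩ := exists_subset_card_eq (hI₀' i (hI hi)).1
        exact ⟨J, fun _ => ⟨hJc, fun j hj => (mem_filter.1 (hJ hj)).2⟩⟩
      · exact ⟨∅, fun h => absurd h hi⟩
    choose J hJ using h7
    exact ⟨r - b, b, by omega, I, hIc, J, hJ⟩
  · have h6 : I₀.Nonempty := by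
      rw [nonempty_iff_ne_empty]
      rintro h7
      rw [h7] at h5
      simp at h5
    obtain ⟨i₀, hi₀⟩ := h6
    have h7 : 2 ^ r ≤ #(nb i₀) := (Nat.pow_le_pow_right (by norm_num) h).trans (hI₀' i₀ hi₀).1
    obtain ⟨J, hJ, hJc⟩ := exists_subset_card_eq h7
    refine ⟨0, r, by omega, {i₀}, by simp, fun _ => J, ?_⟩
    intro i hi
    rw [mem_singleton] at hi
    subst hi
    exact ⟨hJc, fun j hj => (mem_filter.1 (hJ hj)).2⟩

end Pool.Agent.H537R2.Apsq
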