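import Mathlib

/-!
# Existence of families of sets with large unions
-/

set_option linter.unusedSectionVars false
set_option maxHeartbeats 400000

namespace Pool.Agent.H537R2.Apsq

open Finset

theorem choose_bound (n m : ℕ) (h : 128 * m ≤ n) :
    (n.choose m : ℝ) * (m : ℝ) ^ (2 * m) * 32 ^ m ≤ (n : ℝ) ^ (2 * m) := by
  have h1 : ((n.choose m : ℕ) : ℝ) * (m.factorial : ℝ) ≤ (n : ℝ) ^ m := by
    have h2 : n.choose m * m.factorial ≤ n ^ m := by
      rw [mul_comm, ← Nat.descFactorial_eq_factorial_mul_choose]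
      exact Nat.descFactorial_le_pow n m
    exact_mod_cast h2
  have h3 : (m : ℝ) ^ m ≤ Real.exp m * (m.factorial : ℝ) := by
    have := Real.pow_div_factorial_le_exp (m : ℝ) (Nat.cast_nonneg _) m
    rwa [div_le_iff₀ (by positivity)] at this
  have h4 : Real.exp m ≤ 3 ^ m := by
    have h5 : Real.exp 1 ≤ 3 := by linarith [Real.exp_one_lt_d9]
    calc Real.exp m = (Real.exp 1) ^ m := by rw [← Real.exp_nat_mul, mul_one]
      _ ≤ 3 ^ m := pow_le_pow_left₀ (Real.exp_pos _).le h5 m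
  have h6 : (m : ℝ) ^ m ≤ 3 ^ m * (m.factorial : ℝ) :=
    h3.trans (mul_le_mul_of_nonneg_right h4 (Nat.cast_nonneg _))
  have h7 : (3 * m * 32 : ℝ) ≤ n := by
    have : (128 * m : ℝ) ≤ n := by exact_mod_cast h
    have h0 : (0 : ℝ) ≤ m := Nat.cast_nonneg _
    linarith
  calc (n.choose m : ℝ) * (m : ℝ) ^ (2 * m) * 32 ^ m
      = (n.choose m : ℝ) * ((m : ℝ) ^ m) * ((m : ℝ) ^ m) * 32 ^ m := by
        rw [two_mul, pow_add]; ring
    _ ≤ (n.choose m : ℝ) * (3 ^ m * (m.factorial : ℝ)) * ((m : ℝ) ^ m) * 32 ^ m := by gcongr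
    _ = ((n.choose m : ℝ) * (m.factorial : ℝ)) * (3 * m * 32) ^ m := by
        rw [mul_pow, mul_pow]; ring
    _ ≤ (n : ℝ) ^ m * (n : ℝ) ^ m := by gcongr
    _ = (n : ℝ) ^ (2 * m) := by rw [← pow_add, two_mul]

/-- The functions which map all pairs with first component in `I` to `W`. -/
theorem card_maps {n f : ℕ} (I W : Finset (Fin n)) :
    #(univ.filter (fun κ : Fin n × Fin f → Fin n => ∀ p, p.1 ∈ I → κ p ∈ W)) * n ^ (#I * f) =
      #W ^ (#I * f) * n ^ (n * f) := by
  classical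
  have h1 : univ.filter (fun κ : Fin n × Fin f → Fin n => ∀ p, p.1 ∈ I → κ p ∈ W) =
      Fintype.piFinset (fun p : Fin n × Fin f => if p.1 ∈ I then W else univ) := by
    ext κ
    simp only [mem_filter, mem_univ, true_and, Fintype.mem_piFinset]
    constructor
    · intro h p
      by_cases hp : p.1 ∈ I
      · rw [if_pos hp]; exact h p hp
      · rw [if_neg hp]; exact mem_univ _
    · intro h p hp
      have := h p
      rwa [if_pos hp] at this
  have h2 : ∀ p : Fin n × Fin f, #(if p.1 ∈ I then W else univ) =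
      if p.1 ∈ I then #W else n := by
    intro p
    by_cases hp : p.1 ∈ I
    · rw [if_pos hp, if_pos hp]
    · rw [if_neg hp, if_neg hp, card_univ, Fintype.card_fin]
  rw [h1, Fintype.card_piFinset]
  simp only [h2]
  rw [Finset.prod_ite, prod_const, prod_const]
  have h3 : #(univ.filter (fun p : Fin n × Fin f => p.1 ∈ I)) = #I * f := by
    have : univ.filter (fun p : Fin n × Fin f => p.1 ∈ I) = I ×ˢ (univ : Finset (Fin f)) := by
      ext p; simp
    rw [this, card_product, card_univ, Fintype.card_fin]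
  have h4 := Finset.card_filter_add_card_filter_not (s := (univ : Finset (Fin n × Fin f)))
    (fun p => p.1 ∈ I)
  rw [card_univ, Fintype.card_prod, Fintype.card_fin, Fintype.card_fin, h3] at h4
  rw [h3, mul_assoc, ← pow_add]
  congr 2
  omega

/-- The number of functions such that the image of `I × univ` is small. -/
theorem card_bad_one {n f m : ℕ} (I : Finset (Fin n)) (hm : #I * f = 2 * m) (h : 128 * m ≤ n)
    (hn : 0 < n) :
    (#(univ.filter (fun κ : Fin n × Fin f → Fin n =>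
      2 * #((I ×ˢ (univ : Finset (Fin f))).image κ) < #I * f)) : ℝ) * 32 ^ m ≤
      (n : ℝ) ^ (n * f) := by
  classical
  have h1 : univ.filter (fun κ : Fin n × Fin f → Fin n =>
      2 * #((I ×ˢ (univ : Finset (Fin f))).image κ) < #I * f) ⊆
      (powersetCard m (univ : Finset (Fin n))).biUnion (fun W =>
        univ.filter (fun κ : Fin n × Fin f → Fin n => ∀ p, p.1 ∈ I → κ p ∈ W)) := by
    intro κ hκ
    have h2 := (mem_filter.1 hκ).2
    rw [hm] at h2
    have h3 : #((I ×ˢ (univ : Finset (Fin f))).image κ) ≤ m := by omega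
    have h4 : m ≤ #(univ : Finset (Fin n)) := by
      rw [card_univ, Fintype.card_fin]; omega
    obtain ⟨W, hW1, _, hW3⟩ := exists_subsuperset_card_eq (subset_univ _) h3 h4
    rw [mem_biUnion]
    refine ⟨W, mem_powersetCard.2 ⟨subset_univ _, hW3⟩, mem_filter.2 ⟨mem_univ _, ?_⟩⟩
    intro p hp
    exact hW1 (mem_image_of_mem κ (mem_product.2 ⟨hp, mem_univ _⟩))
  have h2 : (#(univ.filter (fun κ : Fin n × Fin f → Fin n =>
      2 * #((I ×ˢ (univ : Finset (Fin f))).image κ) < #I * f))) * n ^ (2 * m) ≤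
      n.choose m * m ^ (2 * m) * n ^ (n * f) := by
    calc _ ≤ (∑ W ∈ powersetCard m (univ : Finset (Fin n)),
        #(univ.filter (fun κ : Fin n × Fin f → Fin n => ∀ p, p.1 ∈ I → κ p ∈ W))) *
          n ^ (2 * m) := Nat.mul_le_mul_right _ ((card_le_card h1).trans card_biUnion_le)
      _ = ∑ W ∈ powersetCard m (univ : Finset (Fin n)), m ^ (2 * m) * n ^ (n * f) := by
          rw [sum_mul]
          refine sum_congr rfl fun W hW => ?_
          have := card_maps (f := f) I W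
          rw [hm, (mem_powersetCard.1 hW).2] at this
          exact this
      _ = _ := by
          rw [sum_const, card_powersetCard, card_univ, Fintype.card_fin, smul_eq_mul, mul_assoc]
  have h3 : (#(univ.filter (fun κ : Fin n × Fin f → Fin n =>
      2 * #((I ×ˢ (univ : Finset (Fin f))).image κ) < #I * f)) : ℝ) * (n : ℝ) ^ (2 * m) ≤
      (n.choose m : ℝ) * (m : ℝ) ^ (2 * m) * (n : ℝ) ^ (n * f) := by exact_mod_cast h2
  have h4 := choose_bound n m h
  have hn' : (0 : ℝ) < n := by exact_mod_cast hn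
  have h5 : ((#(univ.filter (fun κ : Fin n × Fin f → Fin n =>
      2 * #((I ×ˢ (univ : Finset (Fin f))).image κ) < #I * f)) : ℝ) * 32 ^ m) *
      (n : ℝ) ^ (2 * m) ≤ (n : ℝ) ^ (n * f) * (n : ℝ) ^ (2 * m) := by
    calc _ = ((#(univ.filter (fun κ : Fin n × Fin f → Fin n =>
      2 * #((I ×ˢ (univ : Finset (Fin f))).image κ) < #I * f)) : ℝ) * (n : ℝ) ^ (2 * m)) *
          32 ^ m := by ring
      _ ≤ ((n.choose m : ℝ) * (m : ℝ) ^ (2 * m) * (n : ℝ) ^ (n * f)) * 32 ^ m := by gcongr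
      _ = ((n.choose m : ℝ) * (m : ℝ) ^ (2 * m) * 32 ^ m) * (n : ℝ) ^ (n * f) := by ring
      _ ≤ (n : ℝ) ^ (2 * m) * (n : ℝ) ^ (n * f) := by gcongr
      _ = _ := by ring
  exact le_of_mul_le_mul_right h5 (by positivity)

theorem exists_expander (ℓ s : ℕ) (hs : 1 ≤ s) (hf : ℓ + 1 ≤ 2 ^ s) :
    ∃ K : Fin (2 ^ ℓ) → Finset (Fin (2 ^ ℓ)), (∀ i, #(K i) ≤ 2 ^ s) ∧
      ∀ I : Finset (Fin (2 ^ ℓ)), 64 * (#I * 2 ^ s) ≤ 2 ^ ℓ →
        #I * 2 ^ s ≤ 2 * #(I.biUnion K) := by
  classical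
  set n := 2 ^ ℓ with hn
  have hn0 : 0 < n := by positivity
  have hn' : (0 : ℝ) < n := by exact_mod_cast hn0
  set A : Finset (Finset (Fin n)) := univ.filter (fun I => I.Nonempty ∧ 64 * (#I * 2 ^ s) ≤ n)
    with hA
  set bad : Finset (Fin n) → Finset (Fin n × Fin (2 ^ s) → Fin n) := fun I =>
    univ.filter (fun κ => 2 * #((I ×ˢ (univ : Finset (Fin (2 ^ s)))).image κ) < #I * 2 ^ s)
    with hbad
  set tot : ℝ := (n : ℝ) ^ (n * 2 ^ s) with htot
  have htot0 : 0 < tot := by positivity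
  have hone : ∀ I ∈ A, (#(bad I) : ℝ) ≤ (1 / (4 * n)) ^ #I * tot := by
    intro I hI
    obtain ⟨_, hI2⟩ := (mem_filter.1 hI).2
    have hm : #I * 2 ^ s = 2 * (#I * 2 ^ (s - 1)) := by
      have : 2 ^ s = 2 * 2 ^ (s - 1) := by
        rw [← pow_succ']; congr 1; omega
      rw [this]; ring
    have h1 := card_bad_one (f := 2 ^ s) I hm (by omega) hn0
    have h2 : (4 * (n : ℝ)) ^ #I ≤ 32 ^ (#I * 2 ^ (s - 1)) := by
      have h3 : 4 * n ≤ 32 ^ (2 ^ (s - 1)) := by
        have h4 : ℓ + 2 ≤ 5 * 2 ^ (s - 1) := by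
          have : 2 ^ s = 2 * 2 ^ (s - 1) := by
            rw [← pow_succ']; congr 1; omega
          omega
        calc 4 * n = 2 ^ (ℓ + 2) := by rw [hn, pow_add]; ring
          _ ≤ 2 ^ (5 * 2 ^ (s - 1)) := Nat.pow_le_pow_right (by norm_num) h4
          _ = 32 ^ (2 ^ (s - 1)) := by rw [pow_mul]; norm_num
      have h5 : (4 * (n : ℝ)) ≤ 32 ^ (2 ^ (s - 1)) := by exact_mod_cast h3
      calc (4 * (n : ℝ)) ^ #I ≤ (32 ^ (2 ^ (s - 1))) ^ #I := by gcongr
        _ = _ := by rw [← pow_mul, mul_comm]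
    have h6 : (#(bad I) : ℝ) * (4 * (n : ℝ)) ^ #I ≤ tot :=
      (mul_le_mul_of_nonneg_left h2 (Nat.cast_nonneg _)).trans h1
    rw [one_div, inv_pow, ← div_eq_inv_mul, le_div_iff₀ (by positivity)]
    exact h6
  have hsum : (#(A.biUnion bad) : ℝ) < tot := by
    have h1 : (#(A.biUnion bad) : ℝ) ≤ ∑ I ∈ A, (1 / (4 * (n : ℝ))) ^ #I * tot := by
      calc (#(A.biUnion bad) : ℝ) ≤ ((∑ I ∈ A, #(bad I) : ℕ) : ℝ) := by
            exact_mod_cast card_biUnion_le
        _ = ∑ I ∈ A, (#(bad I) : ℝ) := by push_cast; rfl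
        _ ≤ _ := sum_le_sum hone
    have h2 : ∑ I ∈ A, (1 / (4 * (n : ℝ))) ^ #I + 1 ≤
        ∑ I ∈ (univ : Finset (Fin n)).powerset, (1 / (4 * (n : ℝ))) ^ #I := by
      have h3 : ∅ ∉ A := by
        intro h
        obtain ⟨h4, _⟩ := (mem_filter.1 h).2
        exact Finset.not_nonempty_empty h4
      have h5 : ∑ I ∈ insert ∅ A, (1 / (4 * (n : ℝ))) ^ #I =
          1 + ∑ I ∈ A, (1 / (4 * (n : ℝ))) ^ #I := by
        rw [sum_insert h3]; simp
      rw [add_comm, ← h5]
      apply sum_le_sum_of_subset_of_nonneg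
      · intro I _
        rw [mem_powerset]; exact subset_univ _
      · intro I _ _
        positivity
    have h3 := Finset.sum_pow_mul_eq_add_pow (1 / (4 * (n : ℝ))) 1 (univ : Finset (Fin n))
    simp only [one_pow, mul_one] at h3
    rw [h3, card_univ, Fintype.card_fin] at h2
    have h4 : (1 / (4 * (n : ℝ)) + 1) ^ n < 2 := by
      calc (1 / (4 * (n : ℝ)) + 1) ^ n ≤ (Real.exp (1 / (4 * (n : ℝ)))) ^ n := by
            apply pow_le_pow_left₀ (by positivity)
            exact Real.add_one_le_exp _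
        _ = Real.exp (1 / 4) := by
            rw [← Real.exp_nat_mul]
            congr 1
            field_simp
        _ < 2 := by
            have h5 : Real.exp (1 / 4) ≤ Real.exp (1 / 2) := Real.exp_le_exp.2 (by norm_num)
            have h6 : Real.exp (1 / 2) ^ 2 < 4 := by
              rw [← Real.exp_nat_mul]
              norm_num
              linarith [Real.exp_one_lt_d9]
            have h7 : Real.exp (1 / 2) < 2 := by
              have : Real.exp (1 / 2) ^ 2 < 2 ^ 2 := by norm_num; linarith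
              exact lt_of_pow_lt_pow_left₀ 2 (by norm_num) this
            linarith
    have h5 : ∑ I ∈ A, (1 / (4 * (n : ℝ))) ^ #I < 1 := by linarith
    calc (#(A.biUnion bad) : ℝ) ≤ ∑ I ∈ A, (1 / (4 * (n : ℝ))) ^ #I * tot := h1
      _ = (∑ I ∈ A, (1 / (4 * (n : ℝ))) ^ #I) * tot := by rw [sum_mul]
      _ < 1 * tot := mul_lt_mul_of_pos_right h5 htot0
      _ = tot := one_mul _
  have hex : ∃ κ : Fin n × Fin (2 ^ s) → Fin n, κ ∉ A.biUnion bad := by
    by_contra hcon
    push Not at hcon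
    have h1 : A.biUnion bad = univ := eq_univ_of_forall hcon
    rw [h1, card_univ, Fintype.card_fun, Fintype.card_prod, Fintype.card_fin,
      Fintype.card_fin] at hsum
    rw [htot] at hsum
    push_cast at hsum
    exact lt_irrefl _ hsum
  obtain ⟨κ, hκ⟩ := hex
  refine ⟨fun i => univ.image (fun a : Fin (2 ^ s) => κ (i, a)), ?_, ?_⟩
  · intro i
    refine card_image_le.trans ?_
    rw [card_univ, Fintype.card_fin]
  · intro I hI
    rcases Finset.eq_empty_or_nonempty I with h0 | hne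
    · subst h0; simp
    · by_contra hcon
      push Not at hcon
      apply hκ
      rw [mem_biUnion]
      refine ⟨I, mem_filter.2 ⟨mem_univ _, hne, hI⟩, mem_filter.2 ⟨mem_univ _, ?_⟩⟩
      have h1 : (I ×ˢ (univ : Finset (Fin (2 ^ s)))).image κ =
          I.biUnion (fun i => univ.image (fun a : Fin (2 ^ s) => κ (i, a))) := by
        ext v
        simp only [mem_image, mem_product, mem_univ, and_true, mem_biUnion, true_and,
          Prod.exists]
        constructor
        · rintro ⟨i, a, hi, rfl⟩; exact ⟨i, hi, a, rfl⟩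
        · rintro ⟨i, hi, a, rfl⟩; exact ⟨i, a, hi, rfl⟩
      rw [h1]
      exact hcon

/-- For all scales: families of sets of size `2 ^ s` with large unions, up to a factor `2 ^ φ`. -/
theorem exists_family (ℓ φ : ℕ) (hφ : ℓ + 1 ≤ 2 ^ φ) (hφ1 : 1 ≤ φ) (s : ℕ) :
    ∃ K : Fin (2 ^ ℓ) → Finset (Fin (2 ^ ℓ)), (∀ i, #(K i) ≤ 2 ^ s) ∧
      ∀ I : Finset (Fin (2 ^ ℓ)), 64 * (#I * 2 ^ s) ≤ 2 ^ ℓ →
        #I * 2 ^ s ≤ 2 ^ φ * #(I.biUnion K) := by
  rcases le_total φ s with h | h
  · obtain ⟨K, h1, h2⟩ := exists_expander ℓ s (by omega)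
      (hφ.trans (Nat.pow_le_pow_right (by norm_num) h))
    refine ⟨K, h1, fun I hI => (h2 I hI).trans (Nat.mul_le_mul_right _ ?_)⟩
    calc 2 = 2 ^ 1 := by norm_num
      _ ≤ 2 ^ φ := Nat.pow_le_pow_right (by norm_num) hφ1
  · refine ⟨fun i => {i}, fun i => ?_, fun I _ => ?_⟩
    · rw [card_singleton]; exact Nat.one_le_two_pow
    · have h1 : I.biUnion (fun i => {i}) = I := by
        ext i; simp
      rw [h1, mul_comm]
      exact Nat.mul_le_mul_right _ (Nat.pow_le_pow_right (by norm_num) h)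

end Pool.Agent.H537R2.Apsq
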